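import Pool.Agent.Lib.MP_a57f33_nt.PN.Main

/-!
# Pentagon project (MP_a57f33_nt): the cursor form (LIN) of Lemma H implies (ED)

Unknowns `c 1, .., c (n+1)`, functions of lists of length `n + 1`, with `c 1 = c (n+1) = 0` and,
for `W = (w_1, .., w_(n+1))`, `s = w_1 + w_(n+1)`, `1 ≤ j ≤ n`,
`c_(j+1) W - c_j W = c_(j+1) (w_1..w_j, s, w_(j+1)..w_n) - c_j (w_2..w_j, s, w_(j+1)..w_(n+1))`.
-/

set_option autoImplicit false

namespace Pent

universe v

/-- the equations (E_1), .., (E_n) of (LIN) -/
def LINeq (n : ℕ) (c : ℕ → List ℚ → ℚ) : Prop :=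
  ∀ (W : List ℚ) (j : ℕ), W.length = n + 1 → 1 ≤ j → j ≤ n →
    c (j + 1) W - c j W =
      c (j + 1) (W.take j ++ (W.headD 0 + W.getLastD 0) :: (W.drop j).dropLast)
      - c j ((W.take j).tail ++ (W.headD 0 + W.getLastD 0) :: W.drop j)

/-- **(LIN)**: polynomial solutions are constant. -/
def S_LIN : Prop :=
  ∀ (n : ℕ) (c : ℕ → List ℚ → ℚ), 2 ≤ n → (∀ i, PolyL (n + 1) (c i)) →
    (∀ W : List ℚ, c 1 W = 0) → (∀ W : List ℚ, c (n + 1) W = 0) → LINeq n c →
    ∀ (i : ℕ) (W W' : List ℚ), 2 ≤ i → i ≤ n → W.length = n + 1 → W'.length = n + 1 →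
      c i W = c i W'

theorem PolyL.reindex {m n : ℕ} {f : List ℚ → ℚ} (hf : PolyL m f) (σ : List ℕ)
    (hσ : σ.length = m) : PolyL n (fun l => f (σ.map fun k => l.getD k 0)) := by
  obtain ⟨F, hF⟩ := hf
  refine ⟨MvPolynomial.rename (fun i => σ.getD i n) F, ?_⟩
  intro l hl
  change f (σ.map fun k => l.getD k 0) = _
  rw [MvPolynomial.eval_rename, hF _ (by simpa using hσ)]
  have h0 : (0 : ℚ) = (fun k => l.getD k 0) n := by
    simp only
    rw [List.getD_eq_default]
    omega
  congr 2
  funext i
  simp only [Function.comp]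
  by_cases hi : i < σ.length
  · rw [List.getD_eq_getElem _ _ (by simpa using hi), List.getElem_map,
      List.getD_eq_getElem _ _ hi]
  · rw [List.getD_eq_default _ _ (by simpa using hi),
      List.getD_eq_default σ _ (by omega)]
    exact h0

theorem PolyL.congr {n : ℕ} {f g : List ℚ → ℚ} (hf : PolyL n f)
    (h : ∀ l : List ℚ, l.length = n → g l = f l) : PolyL n g := by
  obtain ⟨F, hF⟩ := hf
  exact ⟨F, fun l hl => by rw [h l hl, hF l hl]⟩

theorem PolyL.zero (n : ℕ) : PolyL n (fun _ => 0) := ⟨0, fun _ _ => by simp⟩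

/-- the cursor functions of a solution of (ED) -/
def linc (y : ℚ → List ℚ → List ℚ → ℚ) (n i : ℕ) (W : List ℚ) : ℚ :=
  if 3 ≤ i ∧ i + 1 ≤ n then
    y (W.getD (i - 1) 0) (W.take (i - 1)).reverse (W.drop i).reverse else 0

theorem map_range_getD (W : List ℚ) (a b : ℕ) (h : a + b ≤ W.length) :
    ((List.range b).map fun k => W.getD (a + k) 0) = (W.drop a).take b := by
  apply List.ext_getElem
  · simp; omega
  · intro i h1 h2
    simp only [List.getElem_map, List.getElem_range, List.getElem_take, List.getElem_drop]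
    rw [List.getD_eq_getElem]

theorem linc_poly {y : ℚ → List ℚ → List ℚ → ℚ} (hy : PolyED y) (n i : ℕ) :
    PolyL (n + 1) (linc y n i) := by
  by_cases hi : 3 ≤ i ∧ i + 1 ≤ n
  · have h1 := (hy (i - 1) (n + 1 - i)).reindex (n := n + 1)
      ((i - 1) :: ((List.range (i - 1)).reverse ++
        ((List.range (n + 1 - i)).map fun k => i + k).reverse)) (by simp; omega)
    refine h1.congr ?_
    intro W hW
    unfold linc
    rw [if_pos hi]
    simp only [List.map_cons, List.headD_cons, List.drop_succ_cons, List.drop_zero,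
      List.map_append, List.map_reverse, List.map_map]
    have e1 : ((List.range (i - 1)).map fun k => W.getD k 0) = W.take (i - 1) := by
      have := map_range_getD W 0 (i - 1) (by omega)
      simpa using this
    have e2 : ((List.range (n + 1 - i)).map ((fun k => W.getD k 0) ∘ fun k => i + k))
        = W.drop i := by
      have := map_range_getD W i (n + 1 - i) (by omega)
      rw [List.take_of_length_le (by simp; omega)] at this
      exact this
    rw [e1, e2]
    have l1 : (W.take (i - 1)).reverse.length = i - 1 := by simp; omega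
    rw [List.take_left' l1, List.drop_left' l1]
  · refine (PolyL.zero (n + 1)).congr ?_
    intro W _
    unfold linc
    rw [if_neg hi]

theorem linc_eq {y : ℚ → List ℚ → List ℚ → ℚ} {n : ℕ} (hE : EDeq y n) :
    LINeq n (linc y n) := by
  intro W j hW hj1 hjn
  obtain ⟨p, Q, hp, hQ, rfl⟩ : ∃ p Q : List ℚ, p.length = j ∧ Q.length = n + 1 - j ∧
      W = p ++ Q := ⟨W.take j, W.drop j, by simp; omega, by simp; omega, by simp⟩
  have hp0 : p ≠ [] := by intro h; rw [h] at hp; simp at hp; omega
  have hQ0 : Q ≠ [] := by intro h; rw [h] at hQ; simp at hQ; omega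
  have t1 : (p ++ Q).take j = p := by rw [← hp]; simp
  have t2 : (p ++ Q).drop j = Q := by rw [← hp]; simp
  rw [t1, t2]
  have hs : (p ++ Q).headD 0 + (p ++ Q).getLastD 0
      = p.reverse.getLastD 0 + Q.reverse.headD 0 := by
    congr 1
    · cases p with
      | nil => exact absurd rfl hp0
      | cons a t => simp
    · cases Q using List.reverseRecOn with
      | nil => exact absurd rfl hQ0
      | append_singleton t a _ => simp [← List.append_assoc]
  rw [hs]
  generalize hsv : p.reverse.getLastD 0 + Q.reverse.headD 0 = s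
  have c1 : linc y n (j + 1) (p ++ Q) = if 3 ≤ j + 1 ∧ j + 1 + 1 ≤ n then
      y (Q.reverse.getLastD 0) p.reverse Q.reverse.dropLast else 0 := by
    unfold linc
    congr 1
    rw [Nat.add_sub_cancel]
    congr 1
    · rw [List.getD_append_right _ _ _ _ (by omega), hp, Nat.sub_self]
      cases Q with
      | nil => exact absurd rfl hQ0
      | cons a t => simp
    · rw [t1]
    · have : (p ++ Q).drop (j + 1) = Q.tail := by
        rw [← List.drop_drop, t2, List.drop_one]
      rw [this]
      cases Q with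
      | nil => exact absurd rfl hQ0
      | cons a t => simp
  have c2 : linc y n j (p ++ Q) = if 3 ≤ j ∧ j + 1 ≤ n then
      y (p.reverse.headD 0) p.reverse.tail Q.reverse else 0 := by
    unfold linc
    congr 1
    cases p using List.reverseRecOn with
    | nil => exact absurd rfl hp0
    | append_singleton t a _ =>
      have hj : j - 1 = t.length := by simp at hp; omega
      rw [hj, t2]
      simp
  have c3 : linc y n (j + 1) (p ++ s :: Q.dropLast) = if 3 ≤ j + 1 ∧ j + 1 + 1 ≤ n then
      y s p.reverse Q.reverse.tail else 0 := by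
    unfold linc
    congr 1
    rw [Nat.add_sub_cancel]
    congr 1
    · rw [List.getD_append_right _ _ _ _ (by omega), hp, Nat.sub_self]
      simp
    · rw [← hp]; simp
    · have : (p ++ s :: Q.dropLast).drop (j + 1) = Q.dropLast := by
        rw [← hp, ← List.drop_drop]; simp
      rw [this]
      cases Q using List.reverseRecOn with
      | nil => exact absurd rfl hQ0
      | append_singleton t a _ => simp
  have c4 : linc y n j (p.tail ++ s :: Q) = if 3 ≤ j ∧ j + 1 ≤ n then
      y s p.reverse.dropLast Q.reverse else 0 := by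
    unfold linc
    congr 1
    cases p with
    | nil => exact absurd rfl hp0
    | cons a t =>
      have hj : j - 1 = t.length := by simp at hp; omega
      have hj' : j = t.length + 1 := by simp at hp; omega
      rw [hj]
      simp only [List.tail_cons]
      congr 1
      · rw [List.getD_append_right _ _ _ _ (le_refl _), Nat.sub_self]
        simp
      · simp
      · rw [hj', ← List.drop_drop]; simp
  rw [c1, c2, c3, c4]
  by_cases hAB : 2 ≤ j ∧ 2 ≤ n + 1 - j
  · have h := hE p.reverse Q.reverse (by simp; omega) (by simp; omega) (by simp; omega)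
    unfold EDsum at h
    rw [hsv] at h
    simp only [List.length_reverse, hp, hQ] at h
    by_cases g1 : 3 ≤ j
    · by_cases g2 : 3 ≤ n + 1 - j
      · rw [if_pos g1, if_pos g2] at h
        rw [if_pos (show 3 ≤ j + 1 ∧ j + 1 + 1 ≤ n by omega),
          if_pos (show 3 ≤ j ∧ j + 1 ≤ n by omega),
          if_pos (show 3 ≤ j + 1 ∧ j + 1 + 1 ≤ n by omega),
          if_pos (show 3 ≤ j ∧ j + 1 ≤ n by omega)]
        linarith
      · rw [if_pos g1, if_neg g2] at h
        rw [if_neg (show ¬ (3 ≤ j + 1 ∧ j + 1 + 1 ≤ n) by omega),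
          if_pos (show 3 ≤ j ∧ j + 1 ≤ n by omega),
          if_neg (show ¬ (3 ≤ j + 1 ∧ j + 1 + 1 ≤ n) by omega),
          if_pos (show 3 ≤ j ∧ j + 1 ≤ n by omega)]
        linarith
    · by_cases g2 : 3 ≤ n + 1 - j
      · rw [if_neg g1, if_pos g2] at h
        rw [if_pos (show 3 ≤ j + 1 ∧ j + 1 + 1 ≤ n by omega),
          if_neg (show ¬ (3 ≤ j ∧ j + 1 ≤ n) by omega),
          if_pos (show 3 ≤ j + 1 ∧ j + 1 + 1 ≤ n by omega),
          if_neg (show ¬ (3 ≤ j ∧ j + 1 ≤ n) by omega)]
        linarith
      · rw [if_neg (show ¬ (3 ≤ j + 1 ∧ j + 1 + 1 ≤ n) by omega),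
          if_neg (show ¬ (3 ≤ j ∧ j + 1 ≤ n) by omega),
          if_neg (show ¬ (3 ≤ j + 1 ∧ j + 1 + 1 ≤ n) by omega),
          if_neg (show ¬ (3 ≤ j ∧ j + 1 ≤ n) by omega)]
  · rw [if_neg (show ¬ (3 ≤ j + 1 ∧ j + 1 + 1 ≤ n) by omega),
      if_neg (show ¬ (3 ≤ j ∧ j + 1 ≤ n) by omega),
      if_neg (show ¬ (3 ≤ j + 1 ∧ j + 1 + 1 ≤ n) by omega),
      if_neg (show ¬ (3 ≤ j ∧ j + 1 ≤ n) by omega)]

/-- **(LIN) implies (ED).** -/
theorem S_ED_of_LIN (h : S_LIN) : S_ED := by
  intro n y hy hE w w' A A' B B' hA hB hAA hBB hn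
  have hlin := h n (linc y n) (by omega) (linc_poly hy n)
    (by intro W; unfold linc; rw [if_neg (by omega)])
    (by intro W; unfold linc; rw [if_neg (by omega)]) (linc_eq hE)
    (A.length + 1) (A.reverse ++ w :: B.reverse) (A'.reverse ++ w' :: B'.reverse)
    (by omega) (by omega) (by simp; omega) (by simp; omega)
  have e : ∀ (v : ℚ) (C D : List ℚ), C.length = A.length → D.length = B.length →
      linc y n (A.length + 1) (C.reverse ++ v :: D.reverse) = y v C D := by
    intro v C D hC hD
    unfold linc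
    rw [if_pos (by omega), Nat.add_sub_cancel]
    have e1 : (C.reverse ++ v :: D.reverse).getD A.length 0 = v := by
      rw [List.getD_append_right _ _ _ _ (by simp [hC]), List.length_reverse, hC, Nat.sub_self]
      simp
    have e2 : (C.reverse ++ v :: D.reverse).take A.length = C.reverse := by
      rw [← hC, ← List.length_reverse (as := C)]
      simp
    have e3 : (C.reverse ++ v :: D.reverse).drop (A.length + 1) = D.reverse := by
      rw [← List.drop_drop, ← hC, ← List.length_reverse (as := C)]
      simp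
    rw [e1, e2, e3, List.reverse_reverse, List.reverse_reverse]
  rw [e w A B rfl rfl, e w' A' B' hAA.symm hBB.symm] at hlin
  exact hlin

/-- **(LIN) implies the pentagon equation for all elements of `dm₀`.** -/
theorem pentagon_of_LIN (h : S_LIN) : S_main.{v} := pentagon_of_ED (S_ED_of_LIN h)

end Pent
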